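import Pool.Agent.Helper32.OGFinal

/-!
Q1 of MP_163e4a_co, answered positively: for every involution `z` the orthogonal Grothendieck
polynomials of `1^m × z` converge coefficientwise as `m → ∞`.
-/

namespace Pool.Agent.Results.MP_163e4a_co.Converges

open Pool.Agent.Helper32.OG

/-- The `K`-polynomial `[MX_z]_T` exists (and is unique), and for every involution `z` there is a
power series `G` in `x_1, x_2, ...` such that each coefficient of
`𝔊ᴼ_{1^m × z}` agrees with that of `G` for all sufficiently large `m`. -/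
theorem result :
    (∀ (n : ℕ) (z : Equiv.Perm (Fin n)), z⁻¹ = z →
      IsKPoly z (KPoly z) ∧ ∀ K, IsKPoly z K → K = KPoly z) ∧
    ∀ (n : ℕ) (z : Equiv.Perm (Fin n)), z⁻¹ = z →
      ∃ G : MvPowerSeries ℕ (LaurentPolynomial ℤ), ∀ e : ℕ →₀ ℕ, ∃ M : ℕ, ∀ m ≥ M,
        (GO (oneTimes z m)).coeff e = MvPowerSeries.coeff e G := by
  refine ⟨fun n z _ => ⟨isKPoly_KPoly z, fun K hK => ?_⟩, fun n z _ => ?_⟩
  · apply MvPolynomial.coe_injective
    have h := isKPoly_KPoly z
    unfold IsKPoly at h hK
    rw [h, hK]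
  · choose M hM using fun e : ℕ →₀ ℕ => converges z e
    exact ⟨fun e => (GO (oneTimes z (M e))).coeff e, fun e => ⟨M e, hM e⟩⟩

end Pool.Agent.Results.MP_163e4a_co.Converges
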